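import Pool.Agent.D0H23.JT.RedA

/-!
# JT-RED: from the joint law for Lagrangian subspaces to the joint law for the block systems
-/

set_option autoImplicit false

open scoped Classical

namespace Pool.Agent.D0H23.JT

open Finset hiding ext
open Pool.Agent.Y703.XK (prs ext GdA c9)
open Pool.Agent.D0H69.JT

section sys
variable {U J : Type} [Fintype U] [Fintype J] {q : J} {A : U → U → F3} {B : U → J → F3}

lemma mem_ker' {c : U → F3} {d : {l : J // l ≠ q} → F3} : (c, d) ∈ LinearMap.ker (E1 q A B) ↔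
    ∀ a, ∑ b, A a b * (c b - c a) + ∑ l, B a l * (dx d l - c a) = 0 := mem_ker

lemma inj (hA : ∀ a b, A a b = A b a)
    (hB : ∀ w : U → F3, (∃ a, w a ≠ 0) → ∃ k, ∑ a, w a * B a k ≠ 0)
    {c : U → F3} {d : {l : J // l ≠ q} → F3}
    (hx : ∀ a, ∑ b, A a b * (c b - c a) + ∑ l, B a l * (dx d l - c a) = 0)
    (h0 : Ph q B (c, d) = 0) : c = 0 ∧ d = 0 := by
  have hd : d = 0 := by
    have h := Ph_fst q B (c, d)
    rw [h0] at h
    exact h.symm
  have hT : ∀ k : {l : J // l ≠ q}, ∑ a, B a k.1 * (c a - dx d k.1) = 0 := by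
    intro k
    have h := Ph_snd q B (c, d) k
    rw [h0] at h
    rw [dx_s]
    have h' : (0 : F3) = - ∑ a, B a k.1 * (c a - d k) := h
    linear_combination h'
  have h1 := sumT hA c (dx d) hx
  rw [sum_sub q (fun k => ∑ a, B a k * (c a - dx d k)), sum_eq_zero (fun k _ => hT k),
    add_zero] at h1
  have h2 : ∀ k, ∑ a, c a * B a k = 0 := by
    intro k
    have h3 : ∑ a, B a k * (c a - dx d k) = 0 := by
      by_cases hk : k = q
      · rw [hk]
        exact h1
      · exact hT ⟨k, hk⟩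
    rw [hd, dx_zero] at h3
    rw [← h3]
    exact sum_congr rfl fun a _ => by ring
  refine ⟨?_, hd⟩
  by_contra hne
  obtain ⟨a, ha⟩ := Function.ne_iff.1 hne
  obtain ⟨k, hk⟩ := hB c ⟨a, ha⟩
  exact hk (h2 k)

lemma D_surj (hB : ∀ w : U → F3, (∃ a, w a ≠ 0) → ∃ k, ∑ a, w a * B a k ≠ 0) (y : U → F3) :
    ∃ d : J → F3, ∀ a, ∑ l, B a l * d l = y a := by
  have h : LinearMap.range (Matrix.mulVecLin (Matrix.of B)) = ⊤ := by
    by_contra hne
    obtain ⟨f, hf0, hf⟩ := Submodule.exists_le_ker_of_lt_top _ (lt_top_iff_ne_top.2 hne)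
    have hw : ∀ x : U → F3, f x = ∑ a, x a * f (Pi.single a 1) := by
      intro x
      conv_lhs => rw [pi_eq_sum_univ x, map_sum]
      refine sum_congr rfl fun a _ => ?_
      rw [map_smul, smul_eq_mul]
      congr 2
      funext b
      rw [Pi.single_apply]
      by_cases hab : a = b
      · rw [if_pos hab, if_pos hab.symm]
      · rw [if_neg hab, if_neg (fun h => hab h.symm)]
    obtain ⟨a, ha⟩ : ∃ a, f (Pi.single a 1) ≠ 0 := by
      by_contra hall
      push Not at hall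
      apply hf0
      refine LinearMap.ext fun x => ?_
      rw [hw, LinearMap.zero_apply]
      exact sum_eq_zero fun a _ => by rw [hall, mul_zero]
    obtain ⟨k, hk⟩ := hB (fun a => f (Pi.single a 1)) ⟨a, ha⟩
    apply hk
    have h1 : f (Matrix.mulVecLin (Matrix.of B) (Pi.single k 1)) = 0 :=
      hf (LinearMap.mem_range_self _ _)
    rw [hw] at h1
    rw [← h1]
    refine sum_congr rfl fun a _ => ?_
    rw [Matrix.mulVecLin_apply, Matrix.mulVec_single_one, Matrix.col_apply, Matrix.of_apply,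
      mul_comm]
  obtain ⟨d, hd⟩ := LinearMap.range_eq_top.1 h y
  exact ⟨d, fun a => congrFun hd a⟩

lemma E1_surj (hB : ∀ w : U → F3, (∃ a, w a ≠ 0) → ∃ k, ∑ a, w a * B a k ≠ 0) :
    LinearMap.range (E1 q A B) = ⊤ := by
  rw [LinearMap.range_eq_top]
  intro y
  obtain ⟨d, hd⟩ := D_surj hB y
  refine ⟨(fun _ => - d q, fun k => d k.1 - d q), ?_⟩
  funext a
  rw [E1_app, ← hd a]
  have h1 : ∀ l, dx (fun k : {l : J // l ≠ q} => d k.1 - d q) l = d l - d q := by
    intro l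
    by_cases hl : l = q
    · rw [hl, dx_q, sub_self]
    · exact dx_s (fun k : {l : J // l ≠ q} => d k.1 - d q) ⟨l, hl⟩
  simp only [h1, sub_self, mul_zero, sum_const_zero, zero_add]
  exact sum_congr rfl fun l _ => by ring

lemma card_PP (hA : ∀ a b, A a b = A b a)
    (hB : ∀ w : U → F3, (∃ a, w a ≠ 0) → ∃ k, ∑ a, w a * B a k ≠ 0) :
    Nat.card (PP q A B) = 3 ^ Fintype.card {l : J // l ≠ q} := by
  have h1 : Module.finrank F3 (LinearMap.ker (E1 q A B)) = Fintype.card {l : J // l ≠ q} := by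
    have h := LinearMap.finrank_range_add_finrank_ker (E1 q A B)
    rw [E1_surj hB, finrank_top, Module.finrank_prod, Module.finrank_pi, Module.finrank_pi] at h
    omega
  have h2 : Nat.card (PP q A B) = Nat.card (LinearMap.ker (E1 q A B)) := by
    symm
    refine Nat.card_congr (Equiv.ofBijective
      (fun x : LinearMap.ker (E1 q A B) => (⟨Ph q B x.1, Submodule.mem_map_of_mem x.2⟩ :
        PP q A B)) ⟨?_, ?_⟩)
    · intro x y hxy
      have e1 : Ph q B x.1 = Ph q B y.1 := congrArg Subtype.val hxy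
      have e2 : x - y = 0 := by
        apply Subtype.ext
        have e3 : Ph q B ((x - y : LinearMap.ker (E1 q A B)) : _ × _) = 0 := by
          rw [Submodule.coe_sub, map_sub, e1, sub_self]
        have e4 := inj (c := (x - y : LinearMap.ker (E1 q A B)).1.1)
          (d := (x - y : LinearMap.ker (E1 q A B)).1.2) hA hB (mem_ker.1 (x - y).2) e3
        exact Prod.ext e4.1 e4.2
      exact sub_eq_zero.1 e2
    · rintro ⟨y, hy⟩
      have hy' := hy
      unfold PP at hy'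
      obtain ⟨x, hx, hxy⟩ := Submodule.mem_map.1 hy'
      exact ⟨⟨x, hx⟩, Subtype.ext hxy⟩
  rw [h2, Module.natCard_eq_pow_finrank (K := F3), h1, Nat.card_zmod]

lemma iso (hA : ∀ a b, A a b = A b a) {c c' : U → F3} {d d' : {l : J // l ≠ q} → F3}
    (hx : ∀ a, ∑ b, A a b * (c b - c a) + ∑ l, B a l * (dx d l - c a) = 0)
    (hx' : ∀ a, ∑ b, A a b * (c' b - c' a) + ∑ l, B a l * (dx d' l - c' a) = 0) :
    (Ph q B (c, d)).1 ⬝ᵥ (Ph q B (c', d')).2 = (Ph q B (c', d')).1 ⬝ᵥ (Ph q B (c, d)).2 := by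
  have h0 : ∑ a, ∑ b, A a b * (c' a * c b - c a * c' b) = 0 := by
    have e1 : ∑ a, ∑ b, A a b * (c' a * c b - c a * c' b) =
        ∑ a, ∑ b, A a b * (c' a * c b) - ∑ a, ∑ b, A a b * (c a * c' b) := by
      rw [← sum_sub_distrib]
      refine sum_congr rfl fun a _ => ?_
      rw [← sum_sub_distrib]
      exact sum_congr rfl fun b _ => by ring
    rw [e1, sum_comm (f := fun a b => A a b * (c a * c' b)), sub_eq_zero]
    refine sum_congr rfl fun a _ => sum_congr rfl fun b _ => ?_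
    rw [hA a b]
    ring
  have h1 : ∑ a, (c' a * (∑ b, A a b * (c b - c a) + ∑ l, B a l * (dx d l - c a)) -
      c a * (∑ b, A a b * (c' b - c' a) + ∑ l, B a l * (dx d' l - c' a))) = 0 :=
    sum_eq_zero fun a _ => by rw [hx, hx', mul_zero, mul_zero, sub_zero]
  have h2 : ∑ a, (c' a * (∑ b, A a b * (c b - c a) + ∑ l, B a l * (dx d l - c a)) -
      c a * (∑ b, A a b * (c' b - c' a) + ∑ l, B a l * (dx d' l - c' a))) =
      ∑ a, ∑ b, A a b * (c' a * c b - c a * c' b) +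
        ∑ a, ∑ l, B a l * (c' a * dx d l - c a * dx d' l) := by
    rw [← sum_add_distrib]
    refine sum_congr rfl fun a _ => ?_
    rw [mul_add, mul_add, mul_sum, mul_sum, mul_sum, mul_sum, add_sub_add_comm,
      ← sum_sub_distrib, ← sum_sub_distrib]
    congr 1
    · exact sum_congr rfl fun b _ => by ring
    · exact sum_congr rfl fun b _ => by ring
  rw [h1, h0, zero_add, sum_comm, sum_sub q] at h2
  have h3 : ∑ a, B a q * (c' a * dx d q - c a * dx d' q) = 0 :=
    sum_eq_zero fun a _ => by rw [dx_q, dx_q]; ring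
  rw [h3, zero_add] at h2
  unfold dotProduct
  rw [← sub_eq_zero, ← sum_sub_distrib]
  have h4 : ∀ k : {l : J // l ≠ q}, (Ph q B (c, d)).1 k * (Ph q B (c', d')).2 k -
      (Ph q B (c', d')).1 k * (Ph q B (c, d)).2 k =
      - ∑ a, B a k.1 * (c' a * dx d k.1 - c a * dx d' k.1) := by
    intro k
    rw [Ph_snd, Ph_snd, Ph_fst, Ph_fst, dx_s, dx_s]
    simp only []
    rw [mul_neg, mul_neg, mul_sum, mul_sum, sub_neg_eq_add, neg_add_eq_sub, ← sum_sub_distrib,
      ← sum_neg_distrib]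
    exact sum_congr rfl fun a _ => by ring
  rw [sum_congr rfl fun k _ => h4 k, sum_neg_distrib, ← h2, neg_zero]

lemma lag_PP (hA : ∀ a b, A a b = A b a)
    (hB : ∀ w : U → F3, (∃ a, w a ≠ 0) → ∃ k, ∑ a, w a * B a k ≠ 0) : Lag (PP q A B) := by
  refine ⟨card_PP hA hB, ?_⟩
  intro x hx y hy
  unfold PP at hx hy
  obtain ⟨x0, h1, h1'⟩ := Submodule.mem_map.1 hx
  obtain ⟨y0, h2, h2'⟩ := Submodule.mem_map.1 hy
  rw [← h1', ← h2']
  exact iso hA (mem_ker.1 h1) (mem_ker.1 h2)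

lemma inf_le : (Inf0 (PP q A B)).ncard ≤ 3 ^ Fintype.card U := by
  have h1 : Inf0 (PP q A B) ⊆ (fun c : U → F3 => (Ph q B (c, 0)).2) '' Set.univ := by
    intro b hb
    have hb' : ((0, b) : X {l : J // l ≠ q}) ∈ PP q A B := hb
    unfold PP at hb'
    rw [Submodule.mem_map] at hb'
    obtain ⟨⟨c, d⟩, _, hcd⟩ := hb'
    have h2 := Ph_fst q B (c, d)
    rw [hcd] at h2
    have h3 : d = 0 := h2.symm
    refine ⟨c, trivial, ?_⟩
    rw [h3] at hcd
    exact congrArg Prod.snd hcd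
  calc (Inf0 (PP q A B)).ncard ≤ ((fun c : U → F3 => (Ph q B (c, 0)).2) '' Set.univ).ncard :=
        Set.ncard_le_ncard h1 (Set.toFinite _)
    _ ≤ (Set.univ : Set (U → F3)).ncard := Set.ncard_image_le (Set.toFinite _)
    _ = 3 ^ Fintype.card U := by
        rw [Set.ncard_univ, Nat.card_eq_fintype_card, Fintype.card_fun, ZMod.card]

lemma sm_dx (R : J → J → F3) (c : U → F3) (d : {l : J // l ≠ q} → F3) (k : {l : J // l ≠ q}) :
    ((SM q R).mulVec (Ph q B (c, d)).1 k = (Ph q B (c, d)).2 k) ↔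
      ∑ a, B a k.1 * (c a - dx d k.1) + ∑ l, R k.1 l * (dx d l - dx d k.1) = 0 := by
  rw [Ph_fst, Ph_snd, mulVec_SM, dx_s]
  simp only []
  constructor
  · intro h
    rw [h]
    ring
  · intro h
    linear_combination h

/-- the graph meets the Lagrangian subspace only in `0` iff the block system has only the constant
solutions -/
theorem gd_iff (hA : ∀ a b, A a b = A b a)
    (hB : ∀ w : U → F3, (∃ a, w a ≠ 0) → ∃ k, ∑ a, w a * B a k ≠ 0) (R : J → J → F3)
    (hR : ∀ k l, R k l = R l k) :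
    GdA A B R ↔ ∀ x ∈ PP q A B, Gr (SM q R) x → x = 0 := by
  constructor
  · intro hG x hx hg
    unfold PP at hx
    obtain ⟨⟨c, d⟩, hcd, rfl⟩ := Submodule.mem_map.1 hx
    have h1 := mem_ker'.1 hcd
    have h2 : ∀ k : {l : J // l ≠ q}, ∑ a, B a k.1 * (c a - dx d k.1) +
        ∑ l, R k.1 l * (dx d l - dx d k.1) = 0 := fun k => (sm_dx R c d k).1 (congrFun hg k)
    have h3 := sumT hA c (dx d) h1
    have h4 := anti R hR (dx d)
    have h5 : ∑ k, (∑ a, B a k * (c a - dx d k) + ∑ l, R k l * (dx d l - dx d k)) = 0 := by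
      rw [sum_add_distrib, h3, h4, add_zero]
    rw [sum_sub q, sum_eq_zero (fun k _ => h2 k), add_zero] at h5
    obtain ⟨t, ht1, ht2⟩ := hG c (dx d) h1 (fun k => by
      by_cases hk : k = q
      · rw [hk]
        exact h5
      · exact h2 ⟨k, hk⟩)
    have ht : t = 0 := by rw [← ht2 q, dx_q]
    have hc : c = 0 := funext fun a => by rw [ht1, ht]; rfl
    have hd : d = 0 := funext fun k => by rw [← dx_s d k, ht2, ht]; rfl
    rw [hc, hd]
    exact map_zero (Ph q B)
  · intro hP c d h1 h2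
    have hdx : ∀ l, dx (fun k : {l : J // l ≠ q} => d k.1 - d q) l = d l - d q := by
      intro l
      by_cases hl : l = q
      · rw [hl, dx_q, sub_self]
      · exact dx_s (fun k : {l : J // l ≠ q} => d k.1 - d q) ⟨l, hl⟩
    have e1 : ∀ a, ∑ b, A a b * ((c b - d q) - (c a - d q)) +
        ∑ l, B a l * (dx (fun k : {l : J // l ≠ q} => d k.1 - d q) l - (c a - d q)) = 0 := by
      intro a
      rw [← h1 a]
      simp only [hdx, sub_sub_sub_cancel_right]
    have hmem : Ph q B (fun a => c a - d q, fun k => d k.1 - d q) ∈ PP q A B := by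
      unfold PP
      exact Submodule.mem_map_of_mem (mem_ker'.2 e1)
    have h0 := hP _ hmem (by
      unfold Gr
      funext k
      refine (sm_dx R _ _ k).2 ?_
      rw [← h2 k.1]
      simp only [hdx, sub_sub_sub_cancel_right])
    obtain ⟨hc, hd⟩ := inj hA hB e1 h0
    refine ⟨d q, fun a => ?_, fun l => ?_⟩
    · have := congrFun hc a
      exact sub_eq_zero.1 this
    · by_cases hl : l = q
      · rw [hl]
      · have := congrFun hd ⟨l, hl⟩
        exact sub_eq_zero.1 this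

lemma two_aux {U' : Type} [Fintype U'] {A' : U' → U' → F3} {B' : U' → J → F3} :
    ((PP q A B ⊓ PP q A' B' : Submodule F3 (X {l : J // l ≠ q})) :
      Set (X {l : J // l ≠ q})).ncard ≤ 3 ^ (Fintype.card U + Fintype.card U' +
        (univ.filter fun k : {l : J // l ≠ q} => ∑ a, B a k.1 = ∑ a, B' a k.1).card) := by
  have hex : ∀ x ∈ (PP q A B ⊓ PP q A' B' : Submodule F3 (X {l : J // l ≠ q})),
      ∃ y : (U → F3) × (U' → F3), Ph q B (y.1, x.1) = x ∧ Ph q B' (y.2, x.1) = x := by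
    intro x hx
    have hx1 := (Submodule.mem_inf.1 hx).1
    have hx2 := (Submodule.mem_inf.1 hx).2
    unfold PP at hx1 hx2
    obtain ⟨⟨c, d⟩, _, h1⟩ := Submodule.mem_map.1 hx1
    obtain ⟨⟨c', d'⟩, _, h2⟩ := Submodule.mem_map.1 hx2
    have e1 : x.1 = d := by rw [← h1]; rfl
    have e2 : x.1 = d' := by rw [← h2]; rfl
    refine ⟨(c, c'), ?_, ?_⟩
    · rw [e1]; exact h1
    · rw [e2]; exact h2
  choose! y hy1 hy2 using hex
  obtain ⟨g, hg⟩ : ∃ g : X {l : J // l ≠ q} → ((U → F3) × (U' → F3)) ×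
      ({k : {l : J // l ≠ q} // k ∈ univ.filter fun k : {l : J // l ≠ q} =>
        ∑ a, B a k.1 = ∑ a, B' a k.1} → F3), ∀ x, g x = (y x, fun k => x.1 k.1) :=
    ⟨_, fun _ => rfl⟩
  have hinj : Set.InjOn g ((PP q A B ⊓ PP q A' B' : Submodule F3 (X {l : J // l ≠ q})) :
      Set (X {l : J // l ≠ q})) := by
    intro x hx x' hx' hxx
    rw [hg, hg] at hxx
    have hyy : y x = y x' := congrArg Prod.fst hxx
    have hkk := congrArg Prod.snd hxx
    have hrel : ∀ z ∈ (PP q A B ⊓ PP q A' B' : Submodule F3 (X {l : J // l ≠ q})),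
        ∀ k : {l : J // l ≠ q}, (∑ a, B a k.1 - ∑ a, B' a k.1) * z.1 k =
          ∑ a, B a k.1 * (y z).1 a - ∑ a, B' a k.1 * (y z).2 a := by
      intro z hz k
      have h1 := Ph_snd q B ((y z).1, z.1) k
      have h2 := Ph_snd q B' ((y z).2, z.1) k
      rw [hy1 z hz] at h1
      rw [hy2 z hz] at h2
      rw [h1] at h2
      simp only [mul_sub, sum_sub_distrib, ← sum_mul] at h2
      linear_combination h2
    have hd : x.1 = x'.1 := by
      funext k
      by_cases hk : ∑ a, B a k.1 = ∑ a, B' a k.1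
      · exact congrFun hkk ⟨k, mem_filter.2 ⟨mem_univ _, hk⟩⟩
      · have h1 := hrel x hx k
        have h2 := hrel x' hx' k
        rw [hyy] at h1
        have h3 : (∑ a, B a k.1 - ∑ a, B' a k.1) * (x.1 k - x'.1 k) = 0 := by
          rw [mul_sub, h1, h2, sub_self]
        rcases mul_eq_zero.1 h3 with h | h
        · exact absurd (sub_eq_zero.1 h) hk
        · exact sub_eq_zero.1 h
    rw [← hy1 x hx, ← hy1 x' hx', hyy, hd]
  have h1 := Set.ncard_le_ncard_of_injOn g (t := Set.univ) (fun _ _ => Set.mem_univ _) hinj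
    (Set.toFinite _)
  refine h1.trans (le_of_eq ?_)
  rw [Set.ncard_univ, Nat.card_eq_fintype_card, Fintype.card_prod, Fintype.card_prod,
    Fintype.card_fun, Fintype.card_fun, Fintype.card_fun, ZMod.card, Fintype.card_coe, pow_add,
    pow_add]

lemma pow_bd {δ : ℝ} {V m n : ℕ} (hδ : 0 ≤ δ) (hV : 1 ≤ δ * 3 ^ V) (h : m + V ≤ n) :
    (3 : ℝ) ^ m ≤ δ * 3 ^ n := by
  have h0 : (0 : ℝ) < 3 ^ m := by positivity
  calc (3 : ℝ) ^ m = 1 * 3 ^ m := (one_mul _).symm
    _ ≤ δ * 3 ^ V * 3 ^ m := mul_le_mul_of_nonneg_right hV h0.le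
    _ = δ * 3 ^ (m + V) := by rw [pow_add]; ring
    _ ≤ δ * 3 ^ n := mul_le_mul_of_nonneg_left (pow_le_pow_right₀ (by norm_num) h) hδ

lemma inf_bd {δ : ℝ} {V u : ℕ} (hδ : 0 ≤ δ) (hV : 1 ≤ δ * 3 ^ V) (hu : Fintype.card U ≤ u)
    (h : u + V ≤ Fintype.card {l : J // l ≠ q}) :
    ((Inf0 (PP q A B)).ncard : ℝ) ≤ δ * 3 ^ Fintype.card {l : J // l ≠ q} := by
  have h0 := (Nat.cast_le (α := ℝ)).2 (inf_le (q := q) (A := A) (B := B))
  rw [Nat.cast_pow, Nat.cast_ofNat] at h0
  refine h0.trans (pow_bd hδ hV ?_)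
  omega

lemma two_bd {U' : Type} [Fintype U'] {A' : U' → U' → F3} {B' : U' → J → F3} {δ : ℝ} {V u : ℕ}
    (hδ : 0 ≤ δ) (hV : 1 ≤ δ * 3 ^ V) (hu : Fintype.card U ≤ u) (hu' : Fintype.card U' ≤ u)
    (h : 2 * u + (V + 1) ≤ (univ.filter fun k => ∑ a, B a k ≠ ∑ a, B' a k).card) :
    (((PP q A B ⊓ PP q A' B' : Submodule F3 (X {l : J // l ≠ q})) :
      Set (X {l : J // l ≠ q})).ncard : ℝ) ≤ δ * 3 ^ Fintype.card {l : J // l ≠ q} := by
  have h1 := two_aux (q := q) (A := A) (B := B) (A' := A') (B' := B')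
  have h3 : (univ.filter fun k : J => ∑ a, B a k ≠ ∑ a, B' a k).card ≤
      (univ.filter fun k : {l : J // l ≠ q} => ∑ a, B a k.1 ≠ ∑ a, B' a k.1).card + 1 := by
    have h4 : (univ.filter fun k : J => ∑ a, B a k ≠ ∑ a, B' a k) ⊆
        insert q ((univ.filter fun k : {l : J // l ≠ q} =>
          ∑ a, B a k.1 ≠ ∑ a, B' a k.1).map (Function.Embedding.subtype _)) := by
      intro k hk
      rw [mem_insert]
      by_cases hkq : k = q
      · exact Or.inl hkq
      · refine Or.inr (mem_map.2 ⟨⟨k, hkq⟩, mem_filter.2 ⟨mem_univ _, (mem_filter.1 hk).2⟩, rfl⟩)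
    calc _ ≤ _ := card_le_card h4
      _ ≤ _ := card_insert_le _ _
      _ = _ := by rw [card_map]
  have h5 : (univ.filter fun k : {l : J // l ≠ q} => ∑ a, B a k.1 = ∑ a, B' a k.1).card +
      (univ.filter fun k : {l : J // l ≠ q} => ∑ a, B a k.1 ≠ ∑ a, B' a k.1).card =
      Fintype.card {l : J // l ≠ q} := by
    rw [← card_univ]
    exact card_filter_add_card_filter_not _
  have h0 := (Nat.cast_le (α := ℝ)).2 h1
  rw [Nat.cast_pow, Nat.cast_ofNat] at h0
  refine h0.trans (pow_bd hδ hV ?_)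
  omega

end sys

lemma card_ne {J : Type} [Fintype J] (q : J) :
    Fintype.card {l : J // l ≠ q} + 1 = Fintype.card J := by
  rw [← Fintype.card_congr (Equiv.optionSubtypeNe q), Fintype.card_option]

lemma hyp_PP {κ : Type} [Fintype κ] {U : κ → Type} [∀ j, Fintype (U j)] {J : Type} [Fintype J]
    (q : J) {A : ∀ j, U j → U j → F3} {B : ∀ j, U j → J → F3} {δ : ℝ} {V u : ℕ}
    (hδ : 0 ≤ δ) (hV : 1 ≤ δ * 3 ^ V) (hU : ∀ j, Fintype.card (U j) ≤ u)
    (hJ : u + (V + 1) ≤ Fintype.card J) (hA : ∀ j a b, A j a b = A j b a)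
    (hB : ∀ j, ∀ w : U j → ZMod 3, (∃ a, w a ≠ 0) → ∃ k, ∑ a, w a * B j a k ≠ 0)
    (hh : ∀ j j', j ≠ j' →
      2 * u + (V + 1) ≤ (univ.filter fun k => ∑ a, B j a k ≠ ∑ a, B j' a k).card) :
    Hyp δ fun j => PP q (A j) (B j) := by
  have hc := card_ne q
  exact ⟨fun j => lag_PP (hA j) (hB j), fun j => inf_bd hδ hV (hU j) (by omega),
    fun j j' hjj => two_bd hδ hV (hU j) (hU j') (hh j j' hjj)⟩

attribute [-instance] LinearOrder.toDecidableEq in
lemma fin_le {κ J : Type} [Fintype κ] [Fintype J] [LinearOrder J] (q : J)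
    [inst : DecidableEq {l : J // l ≠ q}] (F : Fintype (prs J → F3)) {U : κ → Type}
    [∀ j, Fintype (U j)] {A : ∀ j, U j → U j → F3} {B : ∀ j, U j → J → F3}
    (D : DecidablePred fun α : prs J → F3 => ∀ j, GdA (A j) (B j) (ext α))
    (hA : ∀ j a b, A j a b = A j b a)
    (hB : ∀ j, ∀ w : U j → ZMod 3, (∃ a, w a ≠ 0) → ∃ k, ∑ a, w a * B j a k ≠ 0) (c ε : ℝ)
    (h : |Pr (fun j => PP q (A j) (B j)) - c| ≤ ε) :
    |((@Finset.filter _ (fun α : prs J → F3 => ∀ j, GdA (A j) (B j) (ext α)) D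
      (@univ _ F)).card : ℝ) / 3 ^ (prs J).card - c| ≤ ε := by
  have h2 := card_Sy q
  have h3 : ((Sy {l : J // l ≠ q}).card : ℝ) = 3 ^ (prs J).card := by
    rw [← h2, Nat.cast_pow, Nat.cast_ofNat]
  have e1 : (@Finset.filter _ (fun α : prs J → F3 => ∀ j, GdA (A j) (B j) (ext α)) D
      (@univ _ F)).card =
      ((Sy {l : J // l ≠ q}).filter fun S => ∀ j, ∀ x ∈ PP q (A j) (B j), Gr S x → x = 0).card := by
    have h1 := count_SM q F (fun S => ∀ j, ∀ x ∈ PP q (A j) (B j), Gr S x → x = 0)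
    refine Eq.trans (b := ((@univ _ F).filter (fun α : prs J → F3 => ∀ j,
      ∀ x ∈ PP q (A j) (B j), Gr (SM q (ext α)) x → x = 0)).card)
      (congrArg Finset.card (Finset.ext fun α => ?_)) ?_
    · rw [mem_filter, mem_filter]
      exact and_congr_right fun _ => forall_congr' fun j =>
        gd_iff (hA j) (hB j) (ext α) (ext_symm α)
    · convert h1
  rw [e1, ← h3]
  exact h

attribute [-instance] LinearOrder.toDecidableEq in
/-- **RED.** -/
theorem t_RED : S_RED := by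
  intro hJL κ _ ε hε
  obtain ⟨δ, hδ, hJ⟩ := hJL κ ε hε
  obtain ⟨V, hV⟩ := pow_unbounded_of_one_lt (1 / δ) (by norm_num : (1 : ℝ) < 3)
  have hV' : 1 ≤ δ * 3 ^ V := by
    rw [div_lt_iff₀ hδ] at hV
    linarith [mul_comm δ ((3 : ℝ) ^ V)]
  refine ⟨V + 1, ?_⟩
  intro u U _ J _ _ A B hU hJc hA hB hh
  obtain ⟨q⟩ : Nonempty J := Fintype.card_pos_iff.1 (by omega)
  have h := @hJ {l : J // l ≠ q} _ (Classical.decEq _) _ (hyp_PP q hδ.le hV' hU hJc hA hB hh)
  exact fin_le (inst := Classical.decEq _) q _ _ hA hB _ _ h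

end Pool.Agent.D0H23.JT
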