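import Pool.Agent.D0H69.JT.Stm

/-!
# JT-RED, first part: matrices without a vertex, the Lagrangian subspace of a block system
-/

set_option autoImplicit false

open scoped Classical

namespace Pool.Agent.D0H23.JT

open Finset hiding ext
open Pool.Agent.Y703.XK (prs ext GdA c9)
open Pool.Agent.D0H69.JT

abbrev F3 := ZMod 3

/-! ## Symmetric matrices with zero diagonal -/

section extS
variable {J : Type} [Fintype J] [LinearOrder J]

lemma mem_prs {k l : J} : (k, l) ∈ prs J ↔ k < l := by
  unfold prs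
  rw [mem_filter]
  simp

lemma ext_lt (α : prs J → F3) {k l : J} (h : k < l) : ext α k l = α ⟨(k, l), mem_prs.2 h⟩ := by
  unfold ext
  rw [dif_pos]

lemma ext_gt (α : prs J → F3) {k l : J} (h : l < k) : ext α k l = α ⟨(l, k), mem_prs.2 h⟩ := by
  unfold ext
  rw [dif_neg (fun h' => absurd (mem_prs.1 h') (not_lt.2 h.le)), dif_pos (mem_prs.2 h)]

lemma ext_self (α : prs J → F3) (k : J) : ext α k k = 0 := by
  unfold ext
  rw [dif_neg (fun h' => absurd (mem_prs.1 h') (lt_irrefl _)),
    dif_neg (fun h' => absurd (mem_prs.1 h') (lt_irrefl _))]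

lemma ext_symm (α : prs J → F3) (k l : J) : ext α k l = ext α l k := by
  rcases lt_trichotomy k l with h | h | h
  · rw [ext_lt α h, ext_gt α h]
  · rw [h]
  · rw [ext_lt α h, ext_gt α h]

lemma ext_of (R : J → J → F3) (hs : ∀ k l, R k l = R l k) (h0 : ∀ k, R k k = 0) (k l : J) :
    ext (fun e : prs J => R e.1.1 e.1.2) k l = R k l := by
  rcases lt_trichotomy k l with h | h | h
  · rw [ext_lt _ h]
  · rw [h, ext_self, h0]
  · rw [ext_gt _ h, hs]

lemma ext_inj {α β : prs J → F3} (h : ∀ k l, ext α k l = ext β k l) : α = β := by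
  funext e
  have he := mem_prs.1 e.2
  have := h e.1.1 e.1.2
  rw [ext_lt α he, ext_lt β he] at this
  exact this

end extS

/-! ## The matrix without the vertex `k₀` -/

section mat
variable {J : Type} [Fintype J]

lemma sum_sub (q : J) (f : J → F3) :
    ∑ l, f l = f q + ∑ l : {l : J // l ≠ q}, f l.1 := by
  have h := Fintype.sum_eq_add_sum_compl q f
  rw [h]
  congr 1
  refine (sum_subtype (F := inferInstance) _ (fun x => ?_) f)
  simp

/-- extension by `0` -/
noncomputable def dx {q : J} (d : {l : J // l ≠ q} → F3) (k : J) : F3 :=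
  if h : k ≠ q then d ⟨k, h⟩ else 0

lemma dx_q {q : J} (d : {l : J // l ≠ q} → F3) : dx d q = 0 := by
  unfold dx
  rw [dif_neg (fun h => h rfl)]

lemma dx_s {q : J} (d : {l : J // l ≠ q} → F3) (k : {l : J // l ≠ q}) : dx d k.1 = d k := by
  unfold dx
  rw [dif_pos k.2]

/-- the matrix -/
noncomputable def SM (q : J) (R : J → J → F3) : Matrix {l : J // l ≠ q} {l : J // l ≠ q} F3 :=
  Matrix.of fun k l => R k.1 l.1 - if k = l then ∑ m, R k.1 m else 0

lemma SM_symm (q : J) (R : J → J → F3) (hs : ∀ k l, R k l = R l k) : (SM q R).IsSymm := by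
  ext k l
  unfold SM
  rw [Matrix.transpose_apply, Matrix.of_apply, Matrix.of_apply, hs]
  by_cases h : k = l
  · subst h
    rfl
  · rw [if_neg h, if_neg (fun h' => h h'.symm)]

lemma mulVec_SM (q : J) (R : J → J → F3) (d : {l : J // l ≠ q} → F3) (k : {l : J // l ≠ q}) :
    (SM q R).mulVec d k = ∑ l, R k.1 l * (dx d l - dx d k.1) := by
  have h1 : (SM q R).mulVec d k = ∑ l : {l : J // l ≠ q}, R k.1 l.1 * d l - (∑ m, R k.1 m) * d k := by
    unfold SM Matrix.mulVec dotProduct
    simp only [Matrix.of_apply, sub_mul, sum_sub_distrib, ite_mul, zero_mul, sum_ite_eq, mem_univ,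
      if_true]
  rw [h1]
  simp_rw [mul_sub, sum_sub_distrib, ← sum_mul]
  rw [sum_sub q (fun l => R k.1 l * dx d l), dx_q, mul_zero, zero_add, dx_s]
  simp_rw [dx_s]

/-- the inverse -/
noncomputable def Rx {q : J} (S : Matrix {l : J // l ≠ q} {l : J // l ≠ q} F3) (k l : J) : F3 :=
  if k = l then 0 else if hk : k ≠ q then (if hl : l ≠ q then S ⟨k, hk⟩ ⟨l, hl⟩ else
    - ∑ m, S ⟨k, hk⟩ m) else (if hl : l ≠ q then - ∑ m, S ⟨l, hl⟩ m else 0)

lemma Rx_self {q : J} (S : Matrix {l : J // l ≠ q} {l : J // l ≠ q} F3) (k : J) :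
    Rx S k k = 0 := by
  unfold Rx
  rw [if_pos rfl]

lemma Rx_symm {q : J} (S : Matrix {l : J // l ≠ q} {l : J // l ≠ q} F3) (hS : S.IsSymm) (k l : J) :
    Rx S k l = Rx S l k := by
  unfold Rx
  by_cases h : k = l
  · subst h
    rfl
  · rw [if_neg h, if_neg (fun h' => h h'.symm)]
    by_cases hk : k ≠ q
    · by_cases hl : l ≠ q
      · simp only [dif_pos hk, dif_pos hl]
        exact hS.apply _ _
      · simp only [dif_pos hk, dif_neg hl]
    · by_cases hl : l ≠ q
      · simp only [dif_neg hk, dif_pos hl]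
      · simp only [dif_neg hk, dif_neg hl]

lemma Rx_ss {q : J} (S : Matrix {l : J // l ≠ q} {l : J // l ≠ q} F3) (k l : {l : J // l ≠ q})
    (h : k ≠ l) : Rx S k.1 l.1 = S k l := by
  unfold Rx
  rw [if_neg (fun h' => h (Subtype.ext h')), dif_pos k.2, dif_pos l.2]

lemma Rx_sq {q : J} (S : Matrix {l : J // l ≠ q} {l : J // l ≠ q} F3) (k : {l : J // l ≠ q}) :
    Rx S k.1 q = - ∑ m, S k m := by
  unfold Rx
  rw [if_neg k.2, dif_pos k.2, dif_neg (fun h => h rfl)]

lemma SM_Rx {q : J} (S : Matrix {l : J // l ≠ q} {l : J // l ≠ q} F3) : SM q (Rx S) = S := by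
  ext k l
  unfold SM
  rw [Matrix.of_apply]
  by_cases h : k = l
  · subst h
    rw [if_pos rfl, Rx_self, sum_sub q (fun m => Rx S k.1 m), Rx_sq]
    have h1 : ∑ m : {l : J // l ≠ q}, Rx S k.1 m.1 = ∑ m, S k m - S k k := by
      rw [← Finset.add_sum_erase _ _ (mem_univ k), ← Finset.add_sum_erase univ (fun m => S k m)
        (mem_univ k), Rx_self]
      have : ∑ x ∈ univ.erase k, Rx S k.1 x.1 = ∑ x ∈ univ.erase k, S k x :=
        sum_congr rfl fun x hx => Rx_ss S k x (fun h => (mem_erase.1 hx).1 h.symm)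
      rw [this]
      ring
    rw [h1]
    ring
  · rw [if_neg h, Rx_ss S k l h, sub_zero]

lemma SM_inj {q : J} {R R' : J → J → F3} (hs : ∀ k l, R k l = R l k) (h0 : ∀ k, R k k = 0)
    (hs' : ∀ k l, R' k l = R' l k) (h0' : ∀ k, R' k k = 0) (h : SM q R = SM q R') (k l : J) :
    R k l = R' k l := by
  have h1 : ∀ k l : {l : J // l ≠ q}, k ≠ l → R k.1 l.1 = R' k.1 l.1 := by
    intro k l hkl
    have := congrFun (congrFun h k) l
    unfold SM at this
    rw [Matrix.of_apply, Matrix.of_apply, if_neg hkl, if_neg hkl, sub_zero, sub_zero] at this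
    exact this
  have h1' : ∀ k l : {l : J // l ≠ q}, R k.1 l.1 = R' k.1 l.1 := by
    intro k l
    by_cases hkl : k = l
    · rw [hkl, h0, h0']
    · exact h1 k l hkl
  have h2 : ∀ k : {l : J // l ≠ q}, R k.1 q = R' k.1 q := by
    intro k
    have := congrFun (congrFun h k) k
    unfold SM at this
    rw [Matrix.of_apply, Matrix.of_apply, if_pos rfl, if_pos rfl, h0, h0',
      sum_sub q (fun m => R k.1 m), sum_sub q (fun m => R' k.1 m),
      sum_congr rfl fun m _ => h1' k m] at this
    linear_combination -this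
  by_cases hk : k = q
  · by_cases hl : l = q
    · rw [hk, hl, h0, h0']
    · rw [hk, hs, hs']
      exact h2 ⟨l, hl⟩
  · by_cases hl : l = q
    · rw [hl]
      exact h2 ⟨k, hk⟩
    · exact h1' ⟨k, hk⟩ ⟨l, hl⟩

end mat

attribute [-instance] LinearOrder.toDecidableEq in
/-- the bijection -/
lemma count_SM {J : Type} [Fintype J] [LinearOrder J] (q : J) [inst : DecidableEq {l : J // l ≠ q}]
    (F : Fintype (prs J → F3)) (Q : Matrix {l : J // l ≠ q} {l : J // l ≠ q} F3 → Prop) :
    ((@univ _ F).filter (fun α : prs J → F3 => Q (SM q (ext α)))).card =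
      ((Sy {l : J // l ≠ q}).filter Q).card := by
  refine card_bij (fun α _ => SM q (ext α)) ?_ ?_ ?_
  · intro α hα
    rw [mem_filter] at hα ⊢
    refine ⟨?_, hα.2⟩
    unfold Sy
    rw [mem_filter]
    exact ⟨mem_univ _, SM_symm q _ (ext_symm α)⟩
  · intro α _ β _ h
    exact ext_inj (SM_inj (ext_symm α) (ext_self α) (ext_symm β) (ext_self β) h)
  · intro S hS
    rw [mem_filter] at hS
    have hS1 : S.IsSymm := by
      have := hS.1
      unfold Sy at this
      exact (mem_filter.1 this).2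
    have e1 : ext (fun e : prs J => Rx S e.1.1 e.1.2) = Rx S := by
      funext k l
      exact ext_of (Rx S) (Rx_symm S hS1) (Rx_self S) k l
    refine ⟨fun e => Rx S e.1.1 e.1.2, ?_, ?_⟩
    · rw [mem_filter, e1, SM_Rx]
      exact ⟨mem_univ _, hS.2⟩
    · rw [e1, SM_Rx]

attribute [-instance] LinearOrder.toDecidableEq in
lemma card_Sy {J : Type} [Fintype J] [LinearOrder J] (q : J) [inst : DecidableEq {l : J // l ≠ q}] :
    3 ^ (prs J).card = (Sy {l : J // l ≠ q}).card := by
  have h := count_SM q inferInstance (fun _ => True)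
  rw [filter_true, filter_true, card_univ,
    Fintype.card_fun, ZMod.card, Fintype.card_coe] at h
  exact h

/-! ## The Lagrangian subspace of a block system -/

section sys
variable {U J : Type} [Fintype U] [Fintype J] (q : J) (A : U → U → F3) (B : U → J → F3)

/-- the first group of equations -/
noncomputable def E1 : ((U → F3) × ({l : J // l ≠ q} → F3)) →ₗ[F3] (U → F3) where
  toFun x := fun a => ∑ b, A a b * (x.1 b - x.1 a) + ∑ l, B a l * (dx x.2 l - x.1 a)
  map_add' x y := by
    funext a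
    have h : ∀ l, dx (x + y).2 l = dx x.2 l + dx y.2 l := by
      intro l
      unfold dx
      by_cases hl : l ≠ q
      · simp only [dif_pos hl]; rfl
      · simp only [dif_neg hl, add_zero]
    simp only [h, Prod.fst_add, Pi.add_apply]
    rw [add_add_add_comm, ← sum_add_distrib, ← sum_add_distrib]
    congr 1
    · exact sum_congr rfl fun _ _ => by ring
    · exact sum_congr rfl fun _ _ => by ring
  map_smul' t x := by
    funext a
    have h : ∀ l, dx (t • x).2 l = t * dx x.2 l := by
      intro l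
      unfold dx
      by_cases hl : l ≠ q
      · simp only [dif_pos hl]; rfl
      · simp only [dif_neg hl, mul_zero]
    simp only [h, Prod.smul_fst, Pi.smul_apply, smul_eq_mul, RingHom.id_apply]
    rw [mul_add, mul_sum, mul_sum]
    congr 1
    · exact sum_congr rfl fun _ _ => by ring
    · exact sum_congr rfl fun _ _ => by ring

/-- the map to the symplectic space -/
noncomputable def Ph : ((U → F3) × ({l : J // l ≠ q} → F3)) →ₗ[F3] X {l : J // l ≠ q} where
  toFun x := (x.2, fun k => - ∑ a, B a k.1 * (x.1 a - x.2 k))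
  map_add' x y := by
    refine Prod.ext rfl ?_
    funext k
    simp only [Prod.fst_add, Pi.add_apply, Prod.snd_add]
    rw [← neg_add, ← sum_add_distrib]
    congr 1
    exact sum_congr rfl fun _ _ => by ring
  map_smul' t x := by
    refine Prod.ext rfl ?_
    funext k
    simp only [Prod.smul_fst, Prod.smul_snd, Pi.smul_apply, smul_eq_mul, RingHom.id_apply]
    rw [mul_neg, mul_sum]
    congr 1
    exact sum_congr rfl fun _ _ => by ring

/-- the subspace -/
noncomputable def PP : Submodule F3 (X {l : J // l ≠ q}) :=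
  (LinearMap.ker (E1 q A B)).map (Ph q B)

lemma Ph_fst (x : (U → F3) × ({l : J // l ≠ q} → F3)) : (Ph q B x).1 = x.2 := rfl

lemma Ph_snd (x : (U → F3) × ({l : J // l ≠ q} → F3)) (k : {l : J // l ≠ q}) :
    (Ph q B x).2 k = - ∑ a, B a k.1 * (x.1 a - x.2 k) := rfl

lemma E1_app (x : (U → F3) × ({l : J // l ≠ q} → F3)) (a : U) :
    E1 q A B x a = ∑ b, A a b * (x.1 b - x.1 a) + ∑ l, B a l * (dx x.2 l - x.1 a) := rfl

lemma dx_zero (l : J) : dx (q := q) (0 : {l : J // l ≠ q} → F3) l = 0 := by
  unfold dx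
  by_cases hl : l ≠ q
  · rw [dif_pos hl]; rfl
  · rw [dif_neg hl]

variable {q A B}

lemma mem_ker {x : (U → F3) × ({l : J // l ≠ q} → F3)} : x ∈ LinearMap.ker (E1 q A B) ↔
    ∀ a, ∑ b, A a b * (x.1 b - x.1 a) + ∑ l, B a l * (dx x.2 l - x.1 a) = 0 := by
  rw [LinearMap.mem_ker]
  constructor
  · intro h a
    exact congrFun h a
  · intro h
    funext a
    exact h a

/-- the sum of all the terms vanishes -/
lemma anti (A : U → U → F3) (hA : ∀ a b, A a b = A b a) (c : U → F3) :
    ∑ a, ∑ b, A a b * (c b - c a) = 0 := by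
  have h1 : ∑ a, ∑ b, A a b * (c b - c a) = ∑ a, ∑ b, A a b * c b - ∑ a, ∑ b, A a b * c a := by
    rw [← sum_sub_distrib]
    refine sum_congr rfl fun a _ => ?_
    rw [← sum_sub_distrib]
    exact sum_congr rfl fun b _ => by ring
  rw [h1, sum_comm (f := fun a b => A a b * c a)]
  have h2 : ∀ b, ∑ a, A a b * c a = ∑ a, A b a * c a := fun b =>
    sum_congr rfl fun a _ => by rw [hA]
  simp_rw [h2]
  exact sub_self _

lemma sumT (hA : ∀ a b, A a b = A b a) (c : U → F3) (d : J → F3)
    (h : ∀ a, ∑ b, A a b * (c b - c a) + ∑ l, B a l * (d l - c a) = 0) :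
    ∑ k, ∑ a, B a k * (c a - d k) = 0 := by
  have h1 : ∑ k, ∑ a, B a k * (c a - d k) = - ∑ a, ∑ l, B a l * (d l - c a) := by
    rw [sum_comm, ← sum_neg_distrib]
    refine sum_congr rfl fun a _ => ?_
    rw [← sum_neg_distrib]
    exact sum_congr rfl fun b _ => by ring
  have h2 : ∑ a, ∑ l, B a l * (d l - c a) = - ∑ a, ∑ b, A a b * (c b - c a) := by
    rw [← sum_neg_distrib]
    refine sum_congr rfl fun a _ => ?_
    linear_combination h a
  rw [h1, h2, anti A hA, neg_zero, neg_zero]

end sys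

end Pool.Agent.D0H23.JT
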